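import Pool.Agent.H71.WE.Targets

/-!
# The case of an end of large degree, partner different from `t`
-/

set_option autoImplicit false
set_option linter.unusedSectionVars false

open Finset Pool.Agent.H71.WE

namespace Pool.Agent.H25.WE

section
variable {V E : Type} [Fintype V] [DecidableEq V] [DecidableEq E]

theorem spl_cr (G : Gr V E) (e : E) (y y' : V) (X : Finset V) (g : E) (hg : g ≠ e) :
    Cr (spl G e y y') X g ↔ Cr G X g := by
  unfold Cr spl
  simp only [Function.update_of_ne hg]

theorem spl_cr_self (G : Gr V E) (e : E) (y y' : V) (X : Finset V) :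
    Cr (spl G e y y') X e ↔ (y ∈ X ∧ y' ∉ X) ∨ (y ∉ X ∧ y' ∈ X) := by
  unfold Cr spl
  simp only [Function.update_self]

theorem spl_cn (G : Gr V E) (e : E) (y y' : V) (B : Finset E) (he : e ∉ B) (X : Finset V) :
    cn (spl G e y y') B X = cn G B X := by
  unfold cn
  congr 1
  refine filter_congr fun g hg => ?_
  exact spl_cr G e y y' X g (fun h => he (h ▸ hg))

theorem spl_co (G : Gr V E) (e : E) (y y' : V) (F : Finset E) (he : e ∉ F) (a b : V)
    (h : Co (spl G e y y') F a b) : Co G F a b := by
  intro X ha hb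
  obtain ⟨g, hg, hc⟩ := h X ha hb
  exact ⟨g, hg, (spl_cr G e y y' X g (fun h => he (h ▸ hg))).1 hc⟩

end

theorem pf_G0Q : T_G0Q := by
  intro V E _ _ _ G A r u v a b x e t q hG hq hqe hqt hJq hxv hEc hI
  obtain ⟨h1, h2, h3, h4, h5, h6, h7, h8, h9⟩ := hG
  have hcard : (A.erase q).card < A.card := card_erase_lt_of_mem hq
  have he1 : e ∈ A.erase q := mem_erase.2 ⟨hqe.symm, h3⟩
  have ht1 : t ∈ A.erase q := mem_erase.2 ⟨hqt.symm, h4⟩
  by_cases hxu : x = u
  · subst hxu
    have hE : Ec G (A.erase q) (r + 2) := by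
      intro X hX hX'
      refine (hEc X hX hX').trans ?_
      unfold cn
      refine card_le_card fun g hg => ?_
      rw [mem_filter] at hg ⊢
      refine ⟨hg.1, ?_⟩
      by_cases hge : g = e
      · subst hge
        have := (spl_cr_self G g x x X).1 hg.2
        tauto
      · exact (spl_cr G e x x X g hge).1 hg.2
    obtain ⟨P, Q, p1, p2, p3, p4, p5, p6, p7, p8, p9⟩ :=
      hI G (A.erase q) hcard x v a b e t ⟨h1, hE, he1, ht1, h5, h6, h7, h8, h9⟩
    refine ⟨P, Q, p1.trans (erase_subset _ _), p2.trans (erase_subset _ _), p3, p4, p5, p6, p7,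
      p8, ?_⟩
    exact ec_mono (sdiff_subset_sdiff (erase_subset _ _) (Subset.refl _)) p9
  · have hJe : Jn (spl G e u x) e u x := by
      left
      unfold spl
      simp only [Function.update_self, and_self]
    have hJt : Jn (spl G e u x) t a b := by
      unfold Jn spl at *
      simp only [Function.update_of_ne h5.symm]
      exact h9
    obtain ⟨P, Q, p1, p2, p3, p4, p5, p6, p7, p8, p9⟩ :=
      hI (spl G e u x) (A.erase q) hcard u x a b e t
        ⟨h1, hEc, he1, ht1, h5, fun h => hxu h.symm, h7, hJe, hJt⟩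
    have hqP : q ∉ P := fun h => (mem_erase.1 (p1 h)).1 rfl
    have key : ∀ c : V, Co (spl G e u x) Q x c → Co G (insert q Q) v c := by
      intro c hc
      rw [insert_eq]
      exact co_trans (co_edge hJq) (spl_co G e u x Q p5 x c hc)
    refine ⟨P, insert q Q, p1.trans (erase_subset _ _), ?_, ?_, p4, ?_, p6, ?_, ?_, ?_⟩
    · exact insert_subset hq (p2.trans (erase_subset _ _))
    · rw [disjoint_insert_right]
      exact ⟨hqP, p3⟩
    · rw [mem_insert]
      exact fun h => h.elim (fun h => hqe h.symm) p5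
    · rw [mem_insert]
      exact fun h => h.elim (fun h => hqt h.symm) p7
    · rcases p8 with ⟨c1, c2⟩ | ⟨c1, c2⟩
      · exact Or.inl ⟨spl_co G e u x P p4 u a c1, key b c2⟩
      · exact Or.inr ⟨spl_co G e u x P p4 u b c1, key a c2⟩
    · have hs : A \ (P ∪ insert q Q ∪ {e, t}) = A.erase q \ (P ∪ Q ∪ {e, t}) := by
        ext g
        simp only [mem_sdiff, mem_union, mem_insert, mem_singleton, mem_erase]
        tauto
      rw [hs]
      intro X hX hX'
      have := p9 X hX hX'
      rwa [spl_cn G e u x _ (by simp) X] at this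

end Pool.Agent.H25.WE
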