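import Pool.Agent.H71.WE.Targets

/-!
# A tight vertex
-/

set_option autoImplicit false
set_option linter.unusedSectionVars false

open Finset Pool.Agent.H71.WE

namespace Pool.Agent.H25.WE

section
variable {V E : Type} [Fintype V] [DecidableEq V] [DecidableEq E]

theorem cn_erase_of_not_cr (G : Gr V E) (A : Finset E) (g : E) (X : Finset V)
    (h : ¬ Cr G X g) : cn G (A.erase g) X = cn G A X := by
  unfold cn
  congr 1
  ext k
  simp only [mem_filter, mem_erase]
  constructor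
  · rintro ⟨⟨-, h1⟩, h2⟩
    exact ⟨h1, h2⟩
  · rintro ⟨h1, h2⟩
    exact ⟨⟨fun hk => h (hk ▸ h2), h1⟩, h2⟩

theorem cn_le_erase (G : Gr V E) (A : Finset E) (g : E) (X : Finset V) :
    cn G A X ≤ cn G (A.erase g) X + 1 := by
  unfold cn
  have h : (A.erase g).filter (fun e => Cr G X e) = (A.filter (fun e => Cr G X e)).erase g := by
    ext k
    simp only [mem_filter, mem_erase]
    tauto
  rw [h]
  have := Finset.pred_card_le_card_erase (s := A.filter (fun e => Cr G X e)) (a := g)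
  omega

/-- an edge that cannot be deleted is in a tight cut, on the side without `v` -/
theorem tight_of (G : Gr V E) (A : Finset E) (c : ℕ) (v : V) (g : E) (hA : Ec G A c)
    (hg : ¬ Ec G (A.erase g) c) :
    ∃ X : Finset V, X.Nonempty ∧ v ∉ X ∧ Cr G X g ∧ cn G A X = c := by
  unfold Ec at hg
  obtain ⟨X, hg⟩ := not_forall.1 hg
  obtain ⟨h1, hg⟩ := Classical.not_imp.1 hg
  obtain ⟨h2, hg⟩ := Classical.not_imp.1 hg
  have h3 : cn G (A.erase g) X < c := not_le.1 hg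
  have hc : Cr G X g := by
    by_contra hcon
    rw [cn_erase_of_not_cr G A g X hcon] at h3
    exact absurd (hA X h1 h2) (by omega)
  have hle := cn_le_erase G A g X
  have hge := hA X h1 h2
  have ht : cn G A X = c := by omega
  by_cases hv : v ∈ X
  · refine ⟨Xᶜ, ?_, ?_, (cr_compl G X g).2 hc, ?_⟩
    · rw [nonempty_iff_ne_empty]
      intro h
      exact h2 (compl_eq_empty_iff X |>.1 h)
    · simpa using hv
    · rw [cn_compl, ht]
  · exact ⟨X, h1, hv, hc, ht⟩

end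

theorem pf_QTV (h1 : T_CUT) (h2 : T_CUX) : T_QTV := by
  intro V E _ _ _ G A r v u w e f hQ huw hdel
  obtain ⟨q1, q2, q3, q4, q5, q6, q7, q8, q9, q10⟩ := hQ
  have hCF := h1 V E G A
  obtain ⟨-, hX2, -⟩ := h2 V E G A
  -- `e` and `f` have the end `v`
  have hend : ∀ g ∈ A, (∃ X Y : Finset V, v ∉ X ∧ v ∉ Y ∧
      ((G.s g ∈ X ∧ G.t g ∈ Y) ∨ (G.s g ∈ Y ∧ G.t g ∈ X))) → g ≠ e ∧ g ≠ f := by
    rintro g - ⟨X, Y, hX, hY, hg⟩
    constructor
    · rintro rfl
      rcases q7 with ⟨a1, a2⟩ | ⟨a1, a2⟩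
      · rw [a1] at hg; tauto
      · rw [a2] at hg; tauto
    · rintro rfl
      rcases q8 with ⟨a1, a2⟩ | ⟨a1, a2⟩
      · rw [a1] at hg; tauto
      · rw [a2] at hg; tauto
  have hne : ∀ X : Finset V, v ∉ X → X ≠ univ := fun X hX h => hX (h ▸ mem_univ v)
  -- a tight set
  have hex : ∃ X : Finset V, X.Nonempty ∧ v ∉ X ∧ cn G A X = r + 2 := by
    have hd : Disjoint ({u} : Finset V) (({u, v} : Finset V)ᶜ) := by
      rw [disjoint_singleton_left]
      simp
    have hu : ({u} : Finset V) ∪ ({u, v} : Finset V)ᶜ = ({v} : Finset V)ᶜ := by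
      ext k
      simp only [mem_union, mem_singleton, mem_compl, mem_insert]
      constructor
      · rintro (rfl | h)
        · exact q9
        · exact fun hk => h (Or.inr hk)
      · intro h
        by_cases hk : k = u
        · exact Or.inl hk
        · exact Or.inr (fun h' => h'.elim hk h)
    have hc := hX2 _ _ hd
    rw [hu, cn_compl G A {v}] at hc
    have c1 : r + 2 ≤ cn G A {u} :=
      q2 _ (singleton_nonempty u) (hne _ (by simpa using q9.symm))
    have c2 : r + 2 ≤ cn G A (({u, v} : Finset V)ᶜ) := by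
      refine q2 _ ⟨w, ?_⟩ (hne _ (by simp))
      simp only [mem_compl, mem_insert, mem_singleton]
      exact fun h => h.elim (fun h => huw h.symm) q10
    have hpos : 0 < (A.filter (fun e => (G.s e ∈ ({u} : Finset V) ∧ G.t e ∈ ({u, v} : Finset V)ᶜ) ∨
        (G.s e ∈ ({u, v} : Finset V)ᶜ ∧ G.t e ∈ ({u} : Finset V)))).card := by omega
    obtain ⟨g, hg⟩ := card_pos.1 hpos
    rw [mem_filter] at hg
    have hgef := hend g hg.1 ⟨_, _, by simpa using q9.symm, by simp, hg.2⟩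
    obtain ⟨X, x1, x2, -, x4⟩ := tight_of G A (r + 2) v g q2 (hdel g hg.1 hgef.1 hgef.2)
    exact ⟨X, x1, x2, x4⟩
  -- a minimal tight set
  have hne' :
      (univ.filter (fun X : Finset V => X.Nonempty ∧ v ∉ X ∧ cn G A X = r + 2)).Nonempty := by
    obtain ⟨X, hX⟩ := hex
    exact ⟨X, mem_filter.2 ⟨mem_univ _, hX⟩⟩
  obtain ⟨X, hX, hmin⟩ := exists_min_image _ (fun X : Finset V => X.card) hne'
  rw [mem_filter] at hX
  obtain ⟨-, x1, x2, x3⟩ := hX
  by_cases hc1 : X.card = 1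
  · obtain ⟨z, hz⟩ := card_eq_one.1 hc1
    refine ⟨z, ?_, ?_⟩
    · rintro rfl
      exact x2 (hz ▸ mem_singleton_self z)
    · rw [← hz]; exact x3
  exfalso
  obtain ⟨x, hx⟩ := x1
  have hpos : 0 < X.card := card_pos.2 ⟨x, hx⟩
  have hcx : (X.erase x).card = X.card - 1 := card_erase_of_mem hx
  have hYne : (X.erase x).Nonempty := card_pos.1 (by omega)
  have hd : Disjoint ({x} : Finset V) (X.erase x) := by
    rw [disjoint_singleton_left]
    simp
  have hu : ({x} : Finset V) ∪ X.erase x = X := by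
    rw [← insert_eq, insert_erase hx]
  have hxu : v ≠ x := fun h => x2 (h ▸ hx)
  have huY : v ∉ X.erase x := fun h => x2 (mem_of_mem_erase h)
  have hc := hX2 _ _ hd
  rw [hu, x3] at hc
  have c1 : r + 2 ≤ cn G A {x} := q2 _ (singleton_nonempty x) (hne _ (by simpa using hxu))
  have c2 : r + 2 ≤ cn G A (X.erase x) := q2 _ hYne (hne _ huY)
  have hpos2 : 0 < (A.filter (fun e => (G.s e ∈ ({x} : Finset V) ∧ G.t e ∈ X.erase x) ∨
      (G.s e ∈ X.erase x ∧ G.t e ∈ ({x} : Finset V)))).card := by omega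
  obtain ⟨g, hg⟩ := card_pos.1 hpos2
  rw [mem_filter] at hg
  have hgef := hend g hg.1 ⟨_, _, by simpa using hxu, huY, hg.2⟩
  obtain ⟨Y, y1, y2, y3, y4⟩ := tight_of G A (r + 2) v g q2 (hdel g hg.1 hgef.1 hgef.2)
  have hgs : G.s g ∈ X ∧ G.t g ∈ X := by
    rcases hg.2 with ⟨a1, a2⟩ | ⟨a1, a2⟩
    · rw [mem_singleton] at a1
      exact ⟨a1 ▸ hx, mem_of_mem_erase a2⟩
    · rw [mem_singleton] at a2
      exact ⟨mem_of_mem_erase a1, a2 ▸ hx⟩
  have hXY : (X ∩ Y).Nonempty ∧ ¬ X ⊆ Y := by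
    rcases y3 with ⟨a1, a2⟩ | ⟨a1, a2⟩
    · exact ⟨⟨G.s g, mem_inter.2 ⟨hgs.1, a1⟩⟩, fun h => a2 (h hgs.2)⟩
    · exact ⟨⟨G.t g, mem_inter.2 ⟨hgs.2, a2⟩⟩, fun h => a1 (h hgs.1)⟩
  have hsub := hCF.sub X Y
  have hui : v ∉ X ∩ Y := fun h => x2 (mem_inter.1 h).1
  have huu : v ∉ X ∪ Y := fun h => (mem_union.1 h).elim x2 y2
  have d1 : r + 2 ≤ cn G A (X ∩ Y) := q2 _ hXY.1 (hne _ hui)
  have d2 : r + 2 ≤ cn G A (X ∪ Y) :=
    q2 _ (y1.mono subset_union_right) (hne _ huu)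
  have ht : cn G A (X ∩ Y) = r + 2 := by omega
  have hlt : (X ∩ Y).card < X.card := by
    refine card_lt_card ?_
    rw [Finset.ssubset_iff_subset_ne]
    refine ⟨inter_subset_left, fun h => hXY.2 ?_⟩
    rw [← h]
    exact inter_subset_right
  have := hmin (X ∩ Y) (mem_filter.2 ⟨mem_univ _, hXY.1, hui, ht⟩)
  omega

end Pool.Agent.H25.WE
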